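import Pool.Agent.Helper34.RB.Final

/-!
# MP_277c78_nt: the constant of `M_r(N)` is `r + O(√(r log r))`
-/

namespace Pool.Agent.Results.MP_277c78_nt.LeadingConstant

open Filter Pool.Agent.Helper16.UB

/-- For every `r ≥ 2` and `ε > 0` and all large `N`,
`(r - 200 √(r log r) - ε) log N / log log N ≤ M_r(N) ≤ (r - 1 + ε) log N / log log N`. -/
theorem result (r : ℕ) (hr : 2 ≤ r) (ε : ℝ) (hε : 0 < ε) :
    ∃ N₀ : ℕ, ∀ N : ℕ, N₀ ≤ N →
      ((r : ℝ) - 200 * √((r : ℝ) * Real.log r) - ε) * (Real.log N / Real.log (Real.log N)) ≤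
          M r N ∧
        M r N ≤ ((r : ℝ) - 1 + ε) * (Real.log N / Real.log (Real.log N)) := by
  obtain ⟨N₀, h⟩ := eventually_atTop.1
    ((upper r (by omega) ε hε).and (Pool.Agent.Helper34.RB.lower hr hε))
  refine ⟨N₀, fun N hN => ⟨(h N hN).2, ?_⟩⟩
  apply csSup_le
  · refine ⟨0, ∅, ⟨by simp, ?_⟩, by simp⟩
    intro m _
    unfold R
    simp
  · rintro s ⟨A, hA, rfl⟩
    exact (h N hN).1 A hA

end Pool.Agent.Results.MP_277c78_nt.LeadingConstant
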