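import Pool.Agent.Helper26.TE.RegVar

/-!
# MP_277c78_nt: `M_r(N)` is regularly varying in `log N` with index one
-/

namespace Pool.Agent.Results.MP_277c78_nt.RegularVariation

open Filter Topology Pool.Agent.Helper16.UB

/-- For every `r ≥ 2` and every `a > 0`: `M_r(⌊N ^ a⌋) / M_r(N) → a`. -/
theorem result (r : ℕ) (hr : 2 ≤ r) (a : ℝ) (ha : 0 < a) :
    Tendsto (fun N : ℕ => M r ⌊(N : ℝ) ^ a⌋₊ / M r N) atTop (𝓝 a) :=
  Pool.Agent.Helper26.TE.reg_var hr ha

end Pool.Agent.Results.MP_277c78_nt.RegularVariation
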