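import Pool.Agent.Helper26.TF.FinalQ

/-!
# MP_277c78_nt: an asymptotic formula for `M_r(N)` in terms of Turán densities

`π_k(r) = td r k` is the limit of `ex r k n / (n choose k)`, where `ex r k n` is the largest number of `k`-subsets
of an `n`-set such that every `(k + 1)`-subset contains at most `r` of them.  For every `r ≥ 2`,
`M_r(N) = (1 + O(log λ / √λ)) ∑_k π_k(r) λ ^ k / k!` with `λ = log log N`.
-/

namespace Pool.Agent.Results.MP_277c78_nt.TuranAsymptotic

open Finset Filter Topology Pool.Agent.Helper16.UB Pool.Agent.Helper26.TD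

/-- For every `r ≥ 2`, with `λ = log log N`: the densities `π_k(r)` exist;
`M_r(N) = (1 + O(log λ / √λ)) ∑_k π_k(r) λ ^ k / k!`; `∑_{n ≤ N} π_{Ω(n)}(r) / n` is a lower bound of `M_r(N)` for
every `N`, and equal to it up to the factor `1 - O(log λ / √λ)`; `M_r(N) λ / log N` and `k π_k(r)` have the same
upper limit and the same lower limit, and one of them converges to `c` iff the other does. -/
theorem result (r : ℕ) (hr : 2 ≤ r) :
    (∀ k : ℕ, Tendsto (fun n : ℕ => (ex r k n : ℝ) / (n.choose k : ℝ)) atTop (𝓝 (td r k))) ∧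
    (∃ C : ℝ, ∃ N₀ : ℕ, ∀ N : ℕ, N₀ ≤ N →
      |M r N - ∑' k : ℕ, td r k * Real.log (Real.log N) ^ k / (k.factorial : ℝ)| ≤
          C * (Real.log (Real.log (Real.log N)) / √(Real.log (Real.log N))) *
            ∑' k : ℕ, td r k * Real.log (Real.log N) ^ k / (k.factorial : ℝ) ∧
        (1 - C * (Real.log (Real.log (Real.log N)) / √(Real.log (Real.log N)))) * M r N ≤
          ∑ n ∈ Icc 1 N, td r (ArithmeticFunction.cardFactors n) * (1 / (n : ℝ))) ∧
    (∀ N : ℕ, ∑ n ∈ Icc 1 N, td r (ArithmeticFunction.cardFactors n) * (1 / (n : ℝ)) ≤ M r N) ∧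
    limsup (fun N : ℕ => M r N * Real.log (Real.log N) / Real.log N) atTop =
      limsup (fun k : ℕ => (k : ℝ) * td r k) atTop ∧
    liminf (fun N : ℕ => M r N * Real.log (Real.log N) / Real.log N) atTop =
      liminf (fun k : ℕ => (k : ℝ) * td r k) atTop ∧
    (∀ c : ℝ, Tendsto (fun N : ℕ => M r N * Real.log (Real.log N) / Real.log N) atTop (𝓝 c) ↔
      Tendsto (fun k : ℕ => (k : ℝ) * td r k) atTop (𝓝 c)) := by
  refine ⟨tendsto_td r, ?_, lower_exact (by omega), (limits hr).1, (limits hr).2, main hr⟩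
  obtain ⟨C, -, N₀, hC⟩ := Pool.Agent.Helper26.TF.rate hr
  exact ⟨C, N₀, hC⟩

end Pool.Agent.Results.MP_277c78_nt.TuranAsymptotic
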