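import Pool.Agent.Helper81.RV.Final

/-!
# MP_277c78_nt: `M_r(N) ≥ ((r - 1)/11) log N / log log N` for every `r ≥ 2`
-/

namespace Pool.Agent.Results.MP_277c78_nt.UniformOrder

open Filter Pool.Agent.Helper16.UB

/-- For every `r ≥ 2` and all large `N`: `((r - 1) / 11) log N / log log N ≤ M_r(N)`. -/
theorem result (r : ℕ) (hr : 2 ≤ r) :
    ∃ N₀ : ℕ, ∀ N : ℕ, N₀ ≤ N →
      ((r : ℝ) - 1) / 11 * (Real.log N / Real.log (Real.log N)) ≤ M r N :=
  eventually_atTop.1 (Pool.Agent.Helper81.RV.lower hr)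

end Pool.Agent.Results.MP_277c78_nt.UniformOrder
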